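import Pool.Agent.H24.RSM.Stmts

/-!
# Modules BOOST, INV, FRAC: linear maps preserving the form `‖x‖² - |s|²`
-/

set_option autoImplicit false

open scoped InnerProductSpace ComplexConjugate

namespace Pool.Agent.H67.RSM

open Pool.Agent.H24.RSM

/-! ## The sesquilinear form -/

/-- The form `⟨x.1, y.1⟩ - conj x.2 * y.2`. -/
noncomputable def fJ {n : ℕ} (x y : E n × ℂ) : ℂ := ⟪x.1, y.1⟫_ℂ - conj x.2 * y.2

theorem fJ_add_right {n : ℕ} (x y w : E n × ℂ) : fJ x (y + w) = fJ x y + fJ x w := by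
  unfold fJ
  rw [Prod.fst_add, Prod.snd_add, inner_add_right]
  ring

theorem fJ_smul_right {n : ℕ} (x y : E n × ℂ) (a : ℂ) : fJ x (a • y) = a * fJ x y := by
  unfold fJ
  rw [Prod.smul_fst, Prod.smul_snd, inner_smul_right, smul_eq_mul]
  ring

theorem fJ_self {n : ℕ} (x : E n × ℂ) : fJ x x = ((‖x.1‖ ^ 2 - ‖x.2‖ ^ 2 : ℝ) : ℂ) := by
  unfold fJ
  rw [inner_self_eq_norm_sq_to_K, Complex.conj_mul']
  push_cast
  rfl

theorem fJ_conj {n : ℕ} (x y : E n × ℂ) : conj (fJ x y) = fJ y x := by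
  unfold fJ
  rw [map_sub, inner_conj_symm, map_mul, Complex.conj_conj]
  ring

theorem fJ_add_re {n : ℕ} (x y : E n × ℂ) :
    ‖(x + y).1‖ ^ 2 - ‖(x + y).2‖ ^ 2 = (‖x.1‖ ^ 2 - ‖x.2‖ ^ 2) + (‖y.1‖ ^ 2 - ‖y.2‖ ^ 2) +
      2 * (fJ x y).re := by
  have h1 : ‖(x + y).1‖ ^ 2 = ‖x.1‖ ^ 2 + 2 * (⟪x.1, y.1⟫_ℂ).re + ‖y.1‖ ^ 2 :=
    norm_add_sq (𝕜 := ℂ) x.1 y.1
  have h2 : ‖(x + y).2‖ ^ 2 = ‖x.2‖ ^ 2 + 2 * (conj x.2 * y.2).re + ‖y.2‖ ^ 2 := by
    rw [Prod.snd_add]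
    simp only [Complex.sq_norm, Complex.normSq_apply, Complex.add_re, Complex.add_im,
      Complex.mul_re, Complex.conj_re, Complex.conj_im]
    ring
  unfold fJ
  rw [h1, h2, Complex.sub_re]
  ring

theorem fJ_map {n : ℕ} (M : (E n × ℂ) →ₗ[ℂ] (E n × ℂ)) (hM : IsJ M) (x y : E n × ℂ) :
    fJ (M x) (M y) = fJ x y := by
  have hre : ∀ x y : E n × ℂ, (fJ (M x) (M y)).re = (fJ x y).re := by
    intro x y
    have h1 := fJ_add_re x y
    have h2 := fJ_add_re (M x) (M y)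
    rw [← map_add, hM, hM, hM] at h2
    linarith
  apply Complex.ext (hre x y)
  have h := hre x (Complex.I • y)
  rw [map_smul, fJ_smul_right, fJ_smul_right] at h
  simp only [Complex.mul_re, Complex.I_re, Complex.I_im] at h
  linarith

/-! ## BOOST -/

/-- The boost attached to `a` with parameters `c`, `t`. -/
noncomputable def boostMap {n : ℕ} (a : E n) (c t : ℝ) : (E n × ℂ) →ₗ[ℂ] (E n × ℂ) where
  toFun x := (x.1 + ((c : ℂ) * ⟪a, x.1⟫_ℂ - t * x.2) • a, (t : ℂ) * x.2 - t * ⟪a, x.1⟫_ℂ)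
  map_add' x y := by
    ext i
    · simp only [Prod.fst_add, Prod.snd_add, inner_add_right, PiLp.add_apply, PiLp.smul_apply,
        smul_eq_mul]
      ring
    · simp only [Prod.fst_add, Prod.snd_add, inner_add_right]
      ring
  map_smul' m x := by
    ext i
    · simp only [Prod.smul_fst, Prod.smul_snd, inner_smul_right, PiLp.add_apply, PiLp.smul_apply,
        smul_eq_mul, RingHom.id_apply]
      ring
    · simp only [Prod.smul_fst, Prod.smul_snd, inner_smul_right, smul_eq_mul, RingHom.id_apply]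
      ring

theorem boostMap_isJ {n : ℕ} (a : E n) (c t : ℝ) (h1 : c * ‖a‖ ^ 2 = t - 1)
    (h2 : c * (t + 1) = t ^ 2) (h3 : t ^ 2 * ‖a‖ ^ 2 = t ^ 2 - 1) : IsJ (boostMap a c t) := by
  intro x
  obtain ⟨y, s⟩ := x
  change ‖y + ((c : ℂ) * ⟪a, y⟫_ℂ - t * s) • a‖ ^ 2 - ‖(t : ℂ) * s - t * ⟪a, y⟫_ℂ‖ ^ 2 =
    ‖y‖ ^ 2 - ‖s‖ ^ 2
  rw [norm_add_sq (𝕜 := ℂ), inner_smul_right, norm_smul, mul_pow, ← inner_conj_symm y a]
  generalize ⟪a, y⟫_ℂ = u
  obtain ⟨u1, u2⟩ := u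
  obtain ⟨s1, s2⟩ := s
  simp only [Complex.sq_norm, Complex.normSq_apply, RCLike.re_to_complex, Complex.sub_re,
    Complex.sub_im, Complex.mul_re, Complex.mul_im, Complex.conj_re, Complex.conj_im,
    Complex.ofReal_re, Complex.ofReal_im]
  linear_combination (c * (u1 ^ 2 + u2 ^ 2) - 2 * t * (u1 * s1 + u2 * s2)) * h1 +
    (u1 ^ 2 + u2 ^ 2) * h2 + (s1 ^ 2 + s2 ^ 2) * h3

theorem boost : BoostStmt := by
  intro n x hx
  have hx2 : x.2 ≠ 0 := by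
    intro h
    rw [h, norm_zero] at hx
    exact absurd hx (not_lt.2 (norm_nonneg _))
  set a : E n := x.2⁻¹ • x.1 with ha
  have hpos : 0 < ‖x.2‖ := norm_pos_iff.2 hx2
  have hna : ‖a‖ < 1 := by
    rw [ha, norm_smul, norm_inv, inv_mul_lt_iff₀ hpos, mul_one]
    exact hx
  have hr : 0 < 1 - ‖a‖ ^ 2 := by nlinarith [norm_nonneg a]
  set t : ℝ := (Real.sqrt (1 - ‖a‖ ^ 2))⁻¹ with ht
  have ht0 : 0 < t := inv_pos.2 (Real.sqrt_pos.2 hr)
  have ht2 : t ^ 2 * (1 - ‖a‖ ^ 2) = 1 := by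
    rw [ht, inv_pow, Real.sq_sqrt hr.le]
    exact inv_mul_cancel₀ hr.ne'
  set c : ℝ := t ^ 2 / (t + 1) with hc
  have h2 : c * (t + 1) = t ^ 2 := by
    rw [hc]
    field_simp
  have h3 : t ^ 2 * ‖a‖ ^ 2 = t ^ 2 - 1 := by linarith
  have h1 : c * ‖a‖ ^ 2 = t - 1 := by
    have h4 : (c * ‖a‖ ^ 2 - (t - 1)) * (t + 1) = 0 := by
      linear_combination ‖a‖ ^ 2 * h2 + h3
    rcases mul_eq_zero.1 h4 with h | h
    · linarith
    · linarith
  refine ⟨boostMap a c t, boostMap_isJ a c t h1 h2 h3, ?_⟩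
  change x.1 + ((c : ℂ) * ⟪a, x.1⟫_ℂ - t * x.2) • a = 0
  have hxa : x.1 = x.2 • a := by
    rw [ha, smul_smul, mul_inv_cancel₀ hx2, one_smul]
  rw [hxa, inner_smul_right, inner_self_eq_norm_sq_to_K, ← add_smul]
  have h5 : ((c : ℂ) * (‖a‖ : ℂ) ^ 2) = t - 1 := by exact_mod_cast congrArg (fun r : ℝ => (r : ℂ)) h1
  have h6 : x.2 + ((c : ℂ) * (x.2 * (‖a‖ : ℂ) ^ 2) - t * x.2) = 0 := by
    linear_combination x.2 * h5
  change (x.2 + ((c : ℂ) * (x.2 * (‖a‖ : ℂ) ^ 2) - t * x.2)) • a = 0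
  rw [h6, zero_smul]

/-! ## INV -/

theorem inv_ : InvStmt := by
  intro n M hM
  have hinj : Function.Injective M := by
    rw [← LinearMap.ker_eq_bot, LinearMap.ker_eq_bot']
    intro x hx
    have h : ∀ y, fJ x y = 0 := by
      intro y
      rw [← fJ_map M hM, hx]
      simp [fJ]
    have h1 := h (x.1, 0)
    have h2 := h (0, x.2)
    simp only [fJ, mul_zero, sub_zero, inner_zero_right, zero_sub, neg_eq_zero] at h1 h2
    have h3 : x.1 = 0 := inner_self_eq_zero.1 h1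
    have h4 : x.2 = 0 := by
      rcases mul_eq_zero.1 h2 with h | h
      · simpa using h
      · exact h
    exact Prod.ext h3 h4
  let e := LinearEquiv.ofInjectiveEndo M hinj
  have he : ∀ x, e x = M x := fun x => rfl
  refine ⟨e.symm.toLinearMap, ?_, ?_, ?_⟩
  · intro x
    have h := hM (e.symm x)
    rw [← he, LinearEquiv.apply_symm_apply] at h
    exact h.symm
  · intro x
    exact e.symm_apply_apply x
  · intro x
    exact e.apply_symm_apply x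

/-! ## FRAC -/

theorem frac_aux {n : ℕ} (M : (E n × ℂ) →ₗ[ℂ] (E n × ℂ)) (hM : IsJ M) (z : E n) (hz : z ∈ Bn n) :
    (M (z, 1)).2 ≠ 0 ∧ 1 - ‖frac M z‖ ^ 2 = (1 - ‖z‖ ^ 2) / ‖(M (z, 1)).2‖ ^ 2 := by
  have hz1 : ‖z‖ < 1 := by simpa [Bn] using hz
  have h := hM (z, 1)
  simp only [norm_one, one_pow] at h
  have h2 : ‖(M (z, 1)).2‖ ^ 2 ≠ 0 := by
    nlinarith [norm_nonneg z, sq_nonneg ‖(M (z, 1)).1‖]
  have h3 : (M (z, 1)).2 ≠ 0 := by
    intro h0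
    rw [h0] at h2
    simp at h2
  refine ⟨h3, ?_⟩
  unfold frac
  rw [norm_smul, norm_inv, mul_pow, inv_pow, eq_div_iff h2, sub_mul, mul_assoc,
    mul_comm (‖(M (z, 1)).1‖ ^ 2), ← mul_assoc, inv_mul_cancel₀ h2]
  linarith

theorem frac_mem {n : ℕ} (M : (E n × ℂ) →ₗ[ℂ] (E n × ℂ)) (hM : IsJ M) (z : E n) (hz : z ∈ Bn n) :
    frac M z ∈ Bn n := by
  obtain ⟨h1, h2⟩ := frac_aux M hM z hz
  have hz1 : ‖z‖ < 1 := by simpa [Bn] using hz
  have h3 : 0 < 1 - ‖frac M z‖ ^ 2 := by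
    rw [h2]
    have : 0 < 1 - ‖z‖ ^ 2 := by nlinarith [norm_nonneg z]
    have := norm_pos_iff.2 h1
    positivity
  have h4 : ‖frac M z‖ < 1 := by
    by_contra hcon
    push Not at hcon
    nlinarith
  simpa [Bn] using h4

theorem frac_diff {n : ℕ} (M : (E n × ℂ) →ₗ[ℂ] (E n × ℂ)) (hM : IsJ M) :
    DifferentiableOn ℂ (frac M) (Bn n) := by
  have h1 : Differentiable ℂ fun z : E n => M (z, 1) :=
    (LinearMap.toContinuousLinearMap M).differentiable.comp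
      (differentiable_id.prodMk (differentiable_const _))
  unfold frac
  exact (h1.snd.differentiableOn.inv fun z hz => (frac_aux M hM z hz).1).smul
    h1.fst.differentiableOn

theorem frac_comp {n : ℕ} (M M' : (E n × ℂ) →ₗ[ℂ] (E n × ℂ)) (z : E n)
    (h0 : (M (z, 1)).2 ≠ 0) (h : ∀ x, M' (M x) = x) : frac M' (frac M z) = z := by
  have h1 : (frac M z, (1 : ℂ)) = ((M (z, 1)).2)⁻¹ • M (z, 1) := by
    unfold frac
    refine Prod.ext rfl ?_
    rw [Prod.smul_snd, smul_eq_mul, inv_mul_cancel₀ h0]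
  have h2 : M' (frac M z, 1) = ((M (z, 1)).2)⁻¹ • (z, 1) := by
    rw [h1, map_smul, h]
  change ((M' (frac M z, 1)).2)⁻¹ • (M' (frac M z, 1)).1 = z
  rw [h2]
  simp only [Prod.smul_snd, Prod.smul_fst, smul_eq_mul, mul_one, inv_inv, smul_smul]
  rw [mul_inv_cancel₀ h0, one_smul]

theorem frac_ : FracStmt := by
  intro n M hM
  refine ⟨frac_aux M hM, frac_diff M hM, frac_mem M hM, ?_⟩
  obtain ⟨M', hM', h1, h2⟩ := inv_ n M hM
  refine ⟨frac M', frac_diff M' hM', frac_mem M' hM', ?_, ?_⟩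
  · intro z hz
    exact frac_comp M M' z (frac_aux M hM z hz).1 h1
  · intro z hz
    exact frac_comp M' M z (frac_aux M' hM' z hz).1 h2

end Pool.Agent.H67.RSM
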