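import Pool.Agent.H67.RSM.BIF
import Pool.Agent.H24.RSM.HP

/-!
# Module WIT: polynomial maps with the same form differ by an element of `U(N, 1)`
-/

set_option autoImplicit false

open scoped InnerProductSpace ComplexConjugate

namespace Pool.Agent.H67.RSM

open Pool.Agent.H24.RSM

/-- Families with the same Gram matrix differ by a unitary map. -/
theorem uni {S V : Type} [NormedAddCommGroup V] [InnerProductSpace ℂ V] [FiniteDimensional ℂ V]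
    (g₁ g₂ : S → V) (h : ∀ w z, ⟪g₁ w, g₁ z⟫_ℂ = ⟪g₂ w, g₂ z⟫_ℂ) :
    ∃ W : V →ₗᵢ[ℂ] V, ∀ z, W (g₂ z) = g₁ z := by
  classical
  set L₁ : (S →₀ ℂ) →ₗ[ℂ] V := Finsupp.linearCombination ℂ g₁ with hL₁
  set L₂ : (S →₀ ℂ) →ₗ[ℂ] V := Finsupp.linearCombination ℂ g₂ with hL₂
  have hin : ∀ f k : S →₀ ℂ, ⟪L₁ f, L₁ k⟫_ℂ = ⟪L₂ f, L₂ k⟫_ℂ := by
    intro f k
    rw [hL₁, hL₂, Finsupp.linearCombination_apply, Finsupp.linearCombination_apply,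
      Finsupp.linearCombination_apply, Finsupp.linearCombination_apply, Finsupp.sum_inner,
      Finsupp.sum_inner]
    simp only [Finsupp.inner_sum, inner_smul_left, inner_smul_right, h]
  have hnorm : ∀ f, ‖L₁ f‖ = ‖L₂ f‖ := by
    intro f
    have h1 := hin f f
    rw [inner_self_eq_norm_sq_to_K, inner_self_eq_norm_sq_to_K] at h1
    have h2 : ‖L₁ f‖ ^ 2 = ‖L₂ f‖ ^ 2 := by exact_mod_cast h1
    exact (pow_left_inj₀ (norm_nonneg _) (norm_nonneg _) two_ne_zero).1 h2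
  have hker : LinearMap.ker L₂ ≤ LinearMap.ker L₁ := by
    intro f hf
    rw [LinearMap.mem_ker] at hf ⊢
    rw [← norm_eq_zero, hnorm, hf, norm_zero]
  let T : LinearMap.range L₂ →ₗ[ℂ] V :=
    ((LinearMap.ker L₂).liftQ L₁ hker).comp (L₂.quotKerEquivRange.symm : _ →ₗ[ℂ] _)
  have hT : ∀ f, T ⟨L₂ f, LinearMap.mem_range_self L₂ f⟩ = L₁ f := by
    intro f
    change (LinearMap.ker L₂).liftQ L₁ hker (L₂.quotKerEquivRange.symm ⟨L₂ f, _⟩) = L₁ f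
    have h3 : L₂.quotKerEquivRange.symm ⟨L₂ f, LinearMap.mem_range_self L₂ f⟩ =
        Submodule.Quotient.mk f := by
      rw [LinearEquiv.symm_apply_eq]
      rfl
    rw [h3]
    rfl
  let Ti : LinearMap.range L₂ →ₗᵢ[ℂ] V :=
    { T with
      norm_map' := by
        rintro ⟨v, f, rfl⟩
        change ‖T ⟨L₂ f, _⟩‖ = ‖L₂ f‖
        rw [hT, hnorm] }
  refine ⟨Ti.extend, fun z => ?_⟩
  have h4 : L₂ (Finsupp.single z 1) = g₂ z := by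
    rw [hL₂, Finsupp.linearCombination_single, one_smul]
  have h5 : L₁ (Finsupp.single z 1) = g₁ z := by
    rw [hL₁, Finsupp.linearCombination_single, one_smul]
  have h6 := Ti.extend_apply ⟨L₂ (Finsupp.single z 1), LinearMap.mem_range_self L₂ _⟩
  change Ti.extend (L₂ (Finsupp.single z 1)) = T ⟨L₂ (Finsupp.single z 1), _⟩ at h6
  rw [hT, h4, h5] at h6
  exact h6

theorem isJ_comp {n : ℕ} {M M' : (E n × ℂ) →ₗ[ℂ] (E n × ℂ)} (h : IsJ M) (h' : IsJ M') :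
    IsJ (M ∘ₗ M') := fun x => (h _).trans (h' x)

theorem isJ_smul {n : ℕ} {M : (E n × ℂ) →ₗ[ℂ] (E n × ℂ)} (h : IsJ M) (a : ℂ) (ha : ‖a‖ = 1) :
    IsJ (a • M) := by
  intro x
  rw [LinearMap.smul_apply, Prod.smul_fst, Prod.smul_snd, norm_smul, norm_smul, ha, one_mul,
    one_mul]
  exact h x

/-- The diagonal map `W × id`. -/
noncomputable def diagMap {n : ℕ} (W : E n →ₗᵢ[ℂ] E n) : (E n × ℂ) →ₗ[ℂ] (E n × ℂ) :=
  LinearMap.prodMap W.toLinearMap LinearMap.id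

theorem diagMap_isJ {n : ℕ} (W : E n →ₗᵢ[ℂ] E n) : IsJ (diagMap W) := by
  intro x
  change ‖W x.1‖ ^ 2 - ‖x.2‖ ^ 2 = _
  rw [W.norm_map]

theorem fJ_vec {n N : ℕ} (p : Fin N → MvPolynomial (Fin n) ℂ) (q : MvPolynomial (Fin n) ℂ)
    (w z : E n) : fJ (vec p w, ev w q) (vec p z, ev z q) =
      ∑ i, ev z (p i) * conj (ev w (p i)) - ev z q * conj (ev w q) := by
  unfold fJ
  rw [PiLp.inner_apply]
  simp only [vec, RCLike.inner_apply]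
  rw [mul_comm (conj (ev w q))]

theorem polarised {n N : ℕ} (p₁ p₂ : Fin N → MvPolynomial (Fin n) ℂ)
    (q₁ q₂ : MvPolynomial (Fin n) ℂ)
    (h : ∀ z : E n, ∑ i, ‖ev z (p₁ i)‖ ^ 2 - ‖ev z q₁‖ ^ 2 =
      ∑ i, ‖ev z (p₂ i)‖ ^ 2 - ‖ev z q₂‖ ^ 2) (w z : E n) :
    fJ (vec p₁ w, ev w q₁) (vec p₁ z, ev z q₁) = fJ (vec p₂ w, ev w q₂) (vec p₂ z, ev z q₂) := by
  have hp := polar (Finset.univ : Finset (Option (Fin N) ⊕ Option (Fin N)))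
    (Sum.elim (fun o => o.elim (-q₁) p₁) (fun o => o.elim q₂ (fun i => -p₂ i)))
    (Sum.elim (fun o => o.elim q₁ p₁) (fun o => o.elim q₂ p₂)) ?_ z w
  · rw [Fintype.sum_sum_type, Fintype.sum_option, Fintype.sum_option] at hp
    simp only [Sum.elim_inl, Sum.elim_inr, Option.elim_none, Option.elim_some] at hp
    have e1 : ev z (-q₁) = - ev z q₁ := map_neg _ _
    have e2 : ∀ i, ev z (-p₂ i) = - ev z (p₂ i) := fun i => map_neg _ _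
    simp only [e1, e2, neg_mul, Finset.sum_neg_distrib] at hp
    rw [fJ_vec, fJ_vec]
    linear_combination hp
  · intro z
    rw [Fintype.sum_sum_type, Fintype.sum_option, Fintype.sum_option]
    simp only [Sum.elim_inl, Sum.elim_inr, Option.elim_none, Option.elim_some]
    have e1 : ev z (-q₁) = - ev z q₁ := map_neg _ _
    have e2 : ∀ i, ev z (-p₂ i) = - ev z (p₂ i) := fun i => map_neg _ _
    simp only [e1, e2, neg_mul, Finset.sum_neg_distrib, Complex.mul_conj']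
    have h1 := congrArg (fun r : ℝ => (r : ℂ)) (h z)
    push_cast at h1
    linear_combination h1

theorem wit : WitStmt := by
  intro n N p₁ p₂ q₁ q₂ h h0
  have hv : ∀ (p : Fin N → MvPolynomial (Fin n) ℂ) (z : E n),
      ‖vec p z‖ ^ 2 = ∑ i, ‖ev z (p i)‖ ^ 2 := by
    intro p z
    rw [EuclideanSpace.norm_sq_eq]
    rfl
  have hJ := polarised p₁ p₂ q₁ q₂ h
  set G₁ : E n → E N × ℂ := fun z => (vec p₁ z, ev z q₁) with hG₁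
  set G₂ : E n → E N × ℂ := fun z => (vec p₂ z, ev z q₂) with hG₂
  have hlt : ∀ (a b : ℝ), 0 ≤ b → a ^ 2 < b ^ 2 → a < b := fun a b hb h =>
    lt_of_pow_lt_pow_left₀ 2 hb h
  obtain ⟨M₁, hM₁, hM₁0⟩ := boost N (G₁ 0) (hlt _ _ (norm_nonneg _) (by
    change ‖vec p₁ 0‖ ^ 2 < ‖ev 0 q₁‖ ^ 2
    rw [hv]; exact h0))
  obtain ⟨M₂, hM₂, hM₂0⟩ := boost N (G₂ 0) (hlt _ _ (norm_nonneg _) (by
    change ‖vec p₂ 0‖ ^ 2 < ‖ev 0 q₂‖ ^ 2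
    rw [hv]
    have := h 0
    linarith))
  have e1 := hM₁ (G₁ 0)
  have e2 := hM₂ (G₂ 0)
  have e3 : ‖(G₁ 0).1‖ ^ 2 - ‖(G₁ 0).2‖ ^ 2 = ‖(G₂ 0).1‖ ^ 2 - ‖(G₂ 0).2‖ ^ 2 := by
    change ‖vec p₁ 0‖ ^ 2 - ‖ev 0 q₁‖ ^ 2 = ‖vec p₂ 0‖ ^ 2 - ‖ev 0 q₂‖ ^ 2
    rw [hv, hv]
    exact h 0
  have e4 : ‖(G₁ 0).1‖ ^ 2 < ‖(G₁ 0).2‖ ^ 2 := by
    change ‖vec p₁ 0‖ ^ 2 < ‖ev 0 q₁‖ ^ 2
    rw [hv]; exact h0
  rw [hM₁0, norm_zero] at e1
  rw [hM₂0, norm_zero] at e2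
  have hs : ‖(M₁ (G₁ 0)).2‖ = ‖(M₂ (G₂ 0)).2‖ := by
    have : ‖(M₁ (G₁ 0)).2‖ ^ 2 = ‖(M₂ (G₂ 0)).2‖ ^ 2 := by linarith
    exact (pow_left_inj₀ (norm_nonneg _) (norm_nonneg _) two_ne_zero).1 this
  have hs1 : (M₁ (G₁ 0)).2 ≠ 0 := by
    intro h
    rw [h, norm_zero] at e1
    linarith
  have hs2 : (M₂ (G₂ 0)).2 ≠ 0 := by
    rw [← norm_pos_iff, ← hs, norm_pos_iff]
    exact hs1
  set θ : ℂ := (M₁ (G₁ 0)).2 / (M₂ (G₂ 0)).2 with hθ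
  have hθ1 : ‖θ‖ = 1 := by
    rw [hθ, norm_div, hs]
    exact div_self (norm_ne_zero_iff.2 hs2)
  set M₃ : (E N × ℂ) →ₗ[ℂ] (E N × ℂ) := θ • M₂ with hM₃
  have hM₃J : IsJ M₃ := isJ_smul hM₂ θ hθ1
  have hM₃0 : M₃ (G₂ 0) = (0, (M₁ (G₁ 0)).2) := by
    refine Prod.ext ?_ ?_
    · rw [hM₃, LinearMap.smul_apply, Prod.smul_fst, hM₂0, smul_zero]
    · rw [hM₃, LinearMap.smul_apply, Prod.smul_snd, smul_eq_mul, hθ]
      exact div_mul_cancel₀ _ hs2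
  have hM₁0' : M₁ (G₁ 0) = (0, (M₁ (G₁ 0)).2) := Prod.ext hM₁0 rfl
  have hJ' : ∀ w z, fJ (M₁ (G₁ w)) (M₁ (G₁ z)) = fJ (M₃ (G₂ w)) (M₃ (G₂ z)) := by
    intro w z
    rw [fJ_map M₁ hM₁, fJ_map M₃ hM₃J]
    exact hJ w z
  have hsnd : ∀ z, (M₁ (G₁ z)).2 = (M₃ (G₂ z)).2 := by
    intro z
    have h1 := hJ' 0 z
    rw [hM₁0', hM₃0] at h1
    simp only [fJ, inner_zero_left, zero_sub] at h1
    have h2 : conj (M₁ (G₁ 0)).2 ≠ 0 := by simpa using hs1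
    exact mul_left_cancel₀ h2 (neg_injective h1)
  have hfst : ∀ w z, ⟪(M₁ (G₁ w)).1, (M₁ (G₁ z)).1⟫_ℂ = ⟪(M₃ (G₂ w)).1, (M₃ (G₂ z)).1⟫_ℂ := by
    intro w z
    have h1 := hJ' w z
    simp only [fJ, hsnd] at h1
    exact sub_left_injective h1
  obtain ⟨W, hW⟩ := uni (fun z => (M₁ (G₁ z)).1) (fun z => (M₃ (G₂ z)).1) hfst
  obtain ⟨M', hM', hM'1, hM'2⟩ := inv_ N M₁ hM₁
  refine ⟨M' ∘ₗ (diagMap W ∘ₗ M₃), isJ_comp hM' (isJ_comp (diagMap_isJ W) hM₃J), fun z => ?_⟩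
  change M' (diagMap W (M₃ (G₂ z))) = G₁ z
  have h1 : diagMap W (M₃ (G₂ z)) = M₁ (G₁ z) := by
    refine Prod.ext ?_ ?_
    · exact hW z
    · exact (hsnd z).symm
  rw [h1, hM'1]

end Pool.Agent.H67.RSM
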